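import Pool.Agent.L7h68.SF.Stm

set_option autoImplicit false

/-!
# Project SF, part BASE: the first system

`V = (Fin N → ℤ) × ℤ`; the second component counts: all elements of `Y` have second component between
`1` and `n`, so a sum of `n + 1` of them is not in `Y`.
-/

namespace Pool.Agent.L7h8.SF

open Pool.Agent.L7h68.SF

theorem sum_ind {N m : ℕ} (A : Fin m → Finset (Fin N)) (hA : ∀ i j, i ≠ j → Disjoint (A i) (A j))
    (S : Finset (Fin m)) : ∑ i ∈ S, ind (A i) = ind (S.biUnion A) := by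
  funext j
  rw [Finset.sum_apply]
  by_cases h : ∃ i ∈ S, j ∈ A i
  · obtain ⟨i, hi, hj⟩ := h
    rw [Finset.sum_eq_single_of_mem i hi]
    · have h1 : j ∈ S.biUnion A := Finset.mem_biUnion.2 ⟨i, hi, hj⟩
      simp only [ind]
      rw [if_pos hj, if_pos h1]
    · intro b _ hb
      have h1 : j ∉ A b := fun h2 => Finset.disjoint_left.1 (hA b i hb) h2 hj
      simp only [ind]
      rw [if_neg h1]
  · rw [Finset.sum_eq_zero]
    · have h1 : j ∉ S.biUnion A := fun h2 => h (Finset.mem_biUnion.1 h2)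
      simp only [ind]
      rw [if_neg h1]
    · intro i hi
      have h1 : j ∉ A i := fun h2 => h ⟨i, hi, h2⟩
      simp only [ind]
      rw [if_neg h1]

theorem s_BASE : S_BASE := by
  classical
  intro N m n
  let P : Sys N :=
    { V := (Fin N → ℤ) × ℤ
      Y := {z | (∃ B : Finset (Fin N), B.Nonempty ∧ z.1 = ind B) ∧ 1 ≤ z.2 ∧ z.2 ≤ (n : ℤ)}
      finite := by
        refine ((Set.finite_range (ind : Finset (Fin N) → Fin N → ℤ)).prod
          (Set.finite_Icc (1 : ℤ) n)).subset ?_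
        rintro z ⟨⟨B, -, hB⟩, h1, h2⟩
        exact ⟨⟨B, hB.symm⟩, h1, h2⟩
      ty := AddMonoidHom.fst _ _
      typed := fun z hz => hz.1 }
  refine ⟨P, ?_, ?_⟩
  · intro x hx
    have h1 : ∀ i, 1 ≤ (x i).2 := by
      intro i
      have := hx {i} (Finset.singleton_nonempty i)
      rw [Finset.sum_singleton] at this
      exact this.2.1
    have h2 := (hx Finset.univ Finset.univ_nonempty).2.2
    rw [Prod.snd_sum] at h2
    have h3 : ∑ _i : Fin (n + 1), (1 : ℤ) ≤ ∑ i, (x i).2 := Finset.sum_le_sum fun i _ => h1 i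
    rw [Finset.sum_const, Finset.card_univ, Fintype.card_fin] at h3
    simp only [nsmul_eq_mul] at h3
    push_cast at h3
    linarith
  · intro A hA1 hA2
    refine ⟨fun i => (ind (A i), 1), fun S hS hSn => ?_⟩
    have e1 : (∑ i ∈ S, ((ind (A i), (1 : ℤ)) : (Fin N → ℤ) × ℤ)).1 = ind (S.biUnion A) := by
      rw [Prod.fst_sum]
      exact sum_ind A hA2 S
    have e2 : (∑ i ∈ S, ((ind (A i), (1 : ℤ)) : (Fin N → ℤ) × ℤ)).2 = S.card := by
      rw [Prod.snd_sum]
      simp
    refine ⟨⟨⟨S.biUnion A, ?_, e1⟩, ?_, ?_⟩, e1⟩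
    · obtain ⟨i, hi⟩ := hS
      obtain ⟨j, hj⟩ := hA1 i
      exact ⟨j, Finset.mem_biUnion.2 ⟨i, hi, hj⟩⟩
    · have h1 : 1 ≤ (S.card : ℤ) := by exact_mod_cast hS.card_pos
      exact h1.trans e2.ge
    · have h1 : (S.card : ℤ) ≤ n := by exact_mod_cast hSn
      exact e2.le.trans h1

end Pool.Agent.L7h8.SF
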