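import Pool.Agent.L7h68.SF.Stm

set_option autoImplicit false

/-!
# Project SF, part ITER: the sparse Folkman theorem in groups, from FUF, STEP, BASE
-/

namespace Pool.Agent.L7h8.SF

open Pool.Agent.L7h68.SF

theorem iter_list (hS : S_STEP) {N t n : ℕ} (hn : 1 ≤ n) (P₀ : Sys N) (h₀ : CubeFree n P₀.Y)
    (l : List (Finset (Fin N))) :
    ∃ P : Sys N, CubeFree n P.Y ∧ ∀ c : P.V → Fin t, ∃ e : P₀.V →+ P.V,
      (∀ y ∈ P₀.Y, e y ∈ P.Y) ∧ (∀ v, P.ty (e v) = P₀.ty v) ∧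
      ∀ A ∈ l, ∀ y ∈ P₀.Y, ∀ y' ∈ P₀.Y, P₀.ty y = ind A → P₀.ty y' = ind A → c (e y) = c (e y') := by
  induction l with
  | nil =>
    exact ⟨P₀, h₀, fun c => ⟨AddMonoidHom.id _, fun y hy => hy, fun v => rfl, fun A hA => by simp at hA⟩⟩
  | cons A l ih =>
    obtain ⟨P, hP, h1⟩ := ih
    obtain ⟨P', hP', h2⟩ := hS N t n hn P A hP
    refine ⟨P', hP', fun c => ?_⟩
    obtain ⟨e', a1, a2, a3⟩ := h2 c
    obtain ⟨e, b1, b2, b3⟩ := h1 fun v => c (e' v)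
    refine ⟨e'.comp e, fun y hy => a1 _ (b1 y hy), fun v => (a2 _).trans (b2 v), ?_⟩
    intro B hB y hy y' hy' g1 g2
    rcases List.mem_cons.1 hB with rfl | hB
    · exact a3 _ (b1 y hy) _ (b1 y' hy') ((b2 y).trans g1) ((b2 y').trans g2)
    · exact b3 B hB y hy y' hy' g1 g2

theorem s_ITER (hF : S_FUF) (hS : S_STEP) (hB : S_BASE) : S_ITER := by
  classical
  intro m n t hn
  obtain ⟨N, hN⟩ := hF m t
  obtain ⟨P₀, h₀, hP₀⟩ := hB N m n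
  obtain ⟨P, hP, h1⟩ := iter_list (t := t) hS hn P₀ h₀ (Finset.univ : Finset (Finset (Fin N))).toList
  refine ⟨P.V, inferInstance, inferInstance, inferInstance, P.Y, P.finite, hP, fun c => ?_⟩
  obtain ⟨e, b1, b2, b3⟩ := h1 c
  obtain ⟨A, k, g1, g2, g3⟩ := hN fun B =>
    if h : ∃ y ∈ P₀.Y, P₀.ty y = ind B then c (e h.choose) else c 0
  obtain ⟨x, hx⟩ := hP₀ A g1 g2
  refine ⟨fun i => e (x i), k, fun S hS1 hS2 => ?_⟩
  obtain ⟨c1, c2⟩ := hx S hS1 hS2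
  rw [← map_sum]
  refine ⟨b1 _ c1, ?_⟩
  have h3 : ∃ y ∈ P₀.Y, P₀.ty y = ind (S.biUnion A) := ⟨_, c1, c2⟩
  have h4 := g3 S hS1
  rw [dif_pos h3] at h4
  rw [← h4]
  exact b3 (S.biUnion A) (by simp) _ c1 _ h3.choose_spec.1 c2 h3.choose_spec.2

end Pool.Agent.L7h8.SF
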