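import Pool.Agent.L7h68.SF.Stm

set_option autoImplicit false

/-!
# Project SF, part STEP: one step of the partite construction, with the Hales-Jewett theorem
-/

namespace Pool.Agent.L7h8.SF

open Pool.Agent.L7h68.SF

theorem ind_apply {N : ℕ} (A : Finset (Fin N)) (j : Fin N) : ind A j = if j ∈ A then 1 else 0 := rfl

theorem ind_inj {N : ℕ} {A B : Finset (Fin N)} (h : ind A = ind B) : A = B := by
  ext j
  have h1 := congrFun h j
  rw [ind_apply, ind_apply] at h1
  by_cases h2 : j ∈ A <;> by_cases h3 : j ∈ B <;> simp_all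

theorem ind_disj {N : ℕ} {A B C : Finset (Fin N)} (h : ind A + ind B = ind C) (j : Fin N)
    (hA : j ∈ A) (hB : j ∈ B) : False := by
  have h1 := congrFun h j
  rw [Pi.add_apply, ind_apply, ind_apply, ind_apply, if_pos hA, if_pos hB] at h1
  split_ifs at h1
  all_goals omega

section

variable {N : ℕ} (P : Sys N) (A : Finset (Fin N)) (a : Fin N) {α ι : Type} [DecidableEq (ι → Option α)]
  (g : α → P.V)

/-- the reduced type -/
def dd : P.V →+ (Fin N → ℤ) where
  toFun v := P.ty v - (P.ty v a) • ind A
  map_zero' := by simp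
  map_add' v w := by
    rw [map_add, Pi.add_apply, add_smul]
    abel

theorem dd_apply (v : P.V) : dd P A a v = P.ty v - (P.ty v a) • ind A := rfl

/-- the new group -/
abbrev VV (α ι : Type) : Type := (ι → P.V) × ((ι → Option α) → Fin N → ℤ) × (Fin N → ℤ)

/-- the embedding of the system along a line -/
def eL (f : ι → Option α) : P.V →+ VV P α ι where
  toFun v := (fun h => (f h).elim v (fun w => (P.ty v a) • g w), Pi.single f (dd P A a v), P.ty v)
  map_zero' := by
    refine Prod.ext ?_ (Prod.ext ?_ ?_)
    · funext h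
      simp only
      cases f h <;> simp
    · simp
    · simp
  map_add' v w := by
    refine Prod.ext ?_ (Prod.ext ?_ ?_)
    · funext h
      simp only [Prod.fst_add, Pi.add_apply]
      cases f h with
      | none => simp
      | some w' => simp [add_smul]
    · simp only [Prod.snd_add, Prod.fst_add]
      rw [map_add, Pi.single_add]
    · simp only [Prod.snd_add]
      rw [map_add]

theorem eL_fst (f : ι → Option α) (v : P.V) (h : ι) :
    (eL P A a g f v).1 h = (f h).elim v (fun w => (P.ty v a) • g w) := rfl

theorem eL_snd (f : ι → Option α) (v : P.V) :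
    (eL P A a g f v).2.1 = Pi.single f (dd P A a v) := rfl

theorem eL_thd (f : ι → Option α) (v : P.V) : (eL P A a g f v).2.2 = P.ty v := rfl

/-- the new set -/
def YY : Set (VV P α ι) :=
  {z | ∃ f : ι → Option α, (∃ h, f h = none) ∧ ∃ y ∈ P.Y, eL P A a g f y = z}

variable (hg : ∀ w, g w ∈ P.Y)

include hg in
theorem mem_of_YY {f : ι → Option α} (hf : ∃ h, f h = none) {v : P.V}
    (hv : eL P A a g f v ∈ YY P A a g) : v ∈ P.Y := by
  obtain ⟨f', -, y, hy, he⟩ := hv
  obtain ⟨h, hh⟩ := hf
  have h1 : (eL P A a g f' y).1 h = v := by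
    rw [he, eL_fst, hh]
    rfl
  have h2 : Pi.single f' (dd P A a y) = (Pi.single f (dd P A a v) : (ι → Option α) → Fin N → ℤ) := by
    rw [← eL_snd P A a g, ← eL_snd P A a g, he]
  have h3 : P.ty y = P.ty v := by rw [← eL_thd P A a g f', he, eL_thd]
  rw [eL_fst] at h1
  cases hc : f' h with
  | none =>
    rw [hc] at h1
    have : y = v := h1
    rwa [← this]
  | some w =>
    rw [hc] at h1
    have h4 : (P.ty y a) • g w = v := h1
    obtain ⟨B, hB, hB'⟩ := P.typed y hy
    have h5 : dd P A a v = dd P A a y := by rw [dd_apply, dd_apply, h3]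
    have h6 : f' ≠ f := by
      intro h7
      rw [h7, hh] at hc
      exact absurd hc (by simp)
    have h7 : dd P A a y = 0 := by
      have h8 := congrFun h2 f'
      rwa [Pi.single_eq_same, Pi.single_eq_of_ne h6] at h8
    rw [dd_apply, hB', sub_eq_zero] at h7
    rcases (by by_cases hx : a ∈ B
               · right; rw [ind_apply, if_pos hx]
               · left; rw [ind_apply, if_neg hx] : ind B a = 0 ∨ ind B a = 1) with h8 | h8
    · exfalso
      rw [h8, zero_smul] at h7
      obtain ⟨j, hj⟩ := hB
      have h9 := congrFun h7 j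
      rw [ind_apply, if_pos hj] at h9
      exact one_ne_zero h9
    · rw [hB', h8, one_smul] at h4
      rw [← h4]
      exact hg w

include hg in
theorem YY_free {n : ℕ} (hn : 1 ≤ n) (hP : CubeFree n P.Y) :
    CubeFree n (YY P A a g : Set (VV P α ι)) := by
  intro x hx
  have hx1 : ∀ i, x i ∈ YY P A a g := by
    intro i
    have := hx {i} (Finset.singleton_nonempty i)
    rwa [Finset.sum_singleton] at this
  have hx2 : ∀ i j, i ≠ j → x i + x j ∈ YY P A a g := by
    intro i j hij
    have := hx {i, j} (Finset.insert_nonempty _ _)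
    rwa [Finset.sum_pair hij] at this
  choose f hf y hy he using hx1
  -- some reduced type is not zero
  obtain ⟨i₀, hi₀⟩ : ∃ i, dd P A a (y i) ≠ 0 := by
    by_contra hc
    push Not at hc
    have h0 : ∀ i, P.ty (y i) = ind A := by
      intro i
      obtain ⟨B, hB, hB'⟩ := P.typed (y i) (hy i)
      have h7 := hc i
      rw [dd_apply, hB', sub_eq_zero] at h7
      rcases (by by_cases hx : a ∈ B
                 · right; rw [ind_apply, if_pos hx]
                 · left; rw [ind_apply, if_neg hx] : ind B a = 0 ∨ ind B a = 1) with h8 | h8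
      · exfalso
        rw [h8, zero_smul] at h7
        obtain ⟨j, hj⟩ := hB
        have h9 := congrFun h7 j
        rw [ind_apply, if_pos hj] at h9
        exact one_ne_zero h9
      · rw [hB', h7, h8, one_smul]
    have h01 : (⟨0, by omega⟩ : Fin (n + 1)) ≠ ⟨1, by omega⟩ := by
      intro h
      have := congrArg Fin.val h
      simp at this
    obtain ⟨f', -, z, hz, hz'⟩ := hx2 _ _ h01
    obtain ⟨C, -, hC⟩ := P.typed z hz
    have h1 : P.ty z = ind A + ind A := by
      rw [← eL_thd P A a g f' z, hz', ← he, ← he, Prod.snd_add, Prod.snd_add, eL_thd, eL_thd, h0, h0]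
    obtain ⟨B, ⟨j, hj⟩, hB'⟩ := P.typed _ (hy ⟨0, by omega⟩)
    rw [h0] at hB'
    have hAB := ind_inj hB'
    rw [← hAB] at hj
    rw [hC] at h1
    exact ind_disj h1.symm j hj hj
  -- all terms are on the same line
  have hv : ∀ i, ∃ v, eL P A a g (f i₀) v = x i := by
    intro i
    by_cases hi : i = i₀
    · rw [hi]
      exact ⟨_, he i₀⟩
    · obtain ⟨f2, -, z, hz, hz'⟩ := hx2 i₀ i (Ne.symm hi)
      by_cases h1 : f i = f i₀
      · refine ⟨y i, ?_⟩
        rw [← h1]
        exact he i
      · have h2 : Pi.single f2 (dd P A a z) = (Pi.single (f i₀) (dd P A a (y i₀)) +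
            Pi.single (f i) (dd P A a (y i)) : (ι → Option α) → Fin N → ℤ) := by
          rw [← eL_snd P A a g, ← eL_snd P A a g, ← eL_snd P A a g, hz', he, he]
          rfl
        have h3 := congrFun h2 (f i₀)
        rw [Pi.add_apply, Pi.single_eq_same, Pi.single_eq_of_ne (Ne.symm h1), add_zero] at h3
        have h4 : f2 = f i₀ := by
          by_contra h5
          rw [Pi.single_eq_of_ne (Ne.symm h5)] at h3
          exact hi₀ h3.symm
        refine ⟨z - y i₀, ?_⟩
        rw [map_sub, he, ← h4, hz']
        abel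
  choose v hv using hv
  refine hP v fun S hS => ?_
  refine mem_of_YY P A a g hg (hf i₀) ?_
  rw [map_sum]
  simp only [hv]
  exact hx S hS

end

theorem s_STEP : S_STEP := by
  classical
  intro N t n hn P A hP
  rcases A.eq_empty_or_nonempty with rfl | ⟨a, ha⟩
  · refine ⟨P, hP, fun c => ⟨AddMonoidHom.id _, fun y hy => hy, fun v => rfl, ?_⟩⟩
    intro y hy y' _ h1 _
    exfalso
    obtain ⟨B, ⟨j, hj⟩, hB⟩ := P.typed y hy
    rw [h1] at hB
    have := ind_inj hB
    rw [← this] at hj
    exact absurd hj (Finset.notMem_empty j)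
  · let α : Type := {y : P.V // y ∈ P.Y ∧ P.ty y = ind A}
    have hfin : Finite α := (P.finite.subset (fun y hy => hy.1 :
      {y : P.V | y ∈ P.Y ∧ P.ty y = ind A} ⊆ P.Y)).to_subtype
    obtain ⟨ι, _, hι⟩ := Combinatorics.Line.exists_mono_in_high_dimension α (Fin t)
    let g : α → P.V := fun w => w.1
    have hg : ∀ w : α, g w ∈ P.Y := fun w => w.2.1
    have hfinJ : Finite (ι → Option α) := inferInstance
    let P' : Sys N :=
      { V := VV P α ι
        Y := YY P A a g
        finite := by
          refine (Set.finite_iUnion fun f : ι → Option α => P.finite.image (eL P A a g f)).subset ?_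
          rintro z ⟨f, -, y, hy, rfl⟩
          exact Set.mem_iUnion.2 ⟨f, y, hy, rfl⟩
        ty := (AddMonoidHom.snd _ _).comp (AddMonoidHom.snd _ _)
        typed := by
          rintro z ⟨f, -, y, hy, rfl⟩
          exact P.typed y hy }
    refine ⟨P', YY_free P A a g hg hn hP, fun c => ?_⟩
    obtain ⟨l, k, hk⟩ := hι fun w : ι → α => c (fun h => g (w h), 0, ind A)
    refine ⟨eL P A a g l.idxFun, fun y hy => ⟨l.idxFun, l.proper, y, hy, rfl⟩, fun v => rfl, ?_⟩
    have key : ∀ y ∈ P.Y, P.ty y = ind A → c (eL P A a g l.idxFun y) = k := by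
      intro y hy h1
      have h5 : P.ty y a = 1 := by rw [h1, ind_apply, if_pos ha]
      have h6 : dd P A a y = 0 := by rw [dd_apply, h5, one_smul, h1, sub_self]
      have h7 := hk ⟨y, hy, h1⟩
      simp only [Combinatorics.Line.coe_apply] at h7
      rw [← h7]
      congr 1
      refine Prod.ext ?_ (Prod.ext ?_ ?_)
      · funext h
        rw [eL_fst, h5]
        simp only
        cases l.idxFun h with
        | none => rfl
        | some w => simp
      · rw [eL_snd, h6]
        exact Pi.single_zero _
      · exact h1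
    intro y hy y' hy' h1 h2
    rw [key y hy h1, key y' hy' h2]

end Pool.Agent.L7h8.SF
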